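import Mathlib
import Pool.Agent.Helper54.Polyomino

set_option autoImplicit false

namespace Pool.Agent.Results.MP_66fa61_co.NotRational

open Finset

/-- The cell `[a, a+1] × [b, b+1]` is represented by its lower left corner `(a, b)`. -/
abbrev Cell := ℤ × ℤ

/-- Two cells are adjacent when they share an edge. -/
def cellGraph : SimpleGraph Cell where
  Adj a b := |a.1 - b.1| + |a.2 - b.2| = 1
  symm := ⟨fun a b h => by rwa [abs_sub_comm b.1, abs_sub_comm b.2]⟩
  loopless := ⟨fun a h => by simp at h⟩

/-- A polyomino is a finite nonempty set of cells, connected through shared edges. -/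
def IsPolyomino (P : Finset Cell) : Prop := (cellGraph.induce (P : Set Cell)).Connected

/-- The translate of a set of cells. -/
def translate (v : Cell) (P : Finset Cell) : Finset Cell := P.image (· + v)

/-- The `n`-ominoes, two of them being identified when they differ by a translation. -/
def polySetoid (n : ℕ) : Setoid {P : Finset Cell // IsPolyomino P ∧ P.card = n} where
  r P Q := ∃ v : Cell, Q.1 = translate v P.1
  iseqv := {
    refl := fun P => ⟨0, (Pool.Agent.Helper54.Polyomino.translate_zero P.1).symm⟩
    symm := fun {P Q} ⟨v, h⟩ => ⟨-v, by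
      rw [h]
      exact (Pool.Agent.Helper54.Polyomino.translate_neg_cancel v P.1).symm⟩
    trans := fun {P Q R} ⟨v, h⟩ ⟨w, h'⟩ => ⟨w + v, by
      rw [h', h]
      exact Pool.Agent.Helper54.Polyomino.translate_translate w v P.1⟩ }

/-- The number of fixed `n`-ominoes. -/
noncomputable def t (n : ℕ) : ℕ := Nat.card (Quotient (polySetoid n))

/-- The generating function `T(z)` of the fixed polyominoes (there is no polyomino with `0` cells,
so the constant term is `0`). -/
noncomputable def T : PowerSeries ℚ := PowerSeries.mk fun n => (t n : ℚ)

/-- `T(z)` is not a rational function: there are no polynomials `P, Q` over the rationals with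
`Q ≠ 0` and `Q T = P`. -/
theorem result : ¬ ∃ P Q : Polynomial ℚ, Q ≠ 0 ∧ (Q : PowerSeries ℚ) * T = (P : PowerSeries ℚ) :=
  Pool.Agent.Helper54.Polyomino.main

end Pool.Agent.Results.MP_66fa61_co.NotRational
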